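import Pool.Agent.H86.OW.Roe
import Pool.Agent.H24.OW.Ka

/-!
# [H86 OW RSY] MP_b39724_nt, theorem OW, (b5'): the data of a cell and symmetries of configurations (`SyG`)

* `pre_filter`, `pre_map`: initial parts of lists.
* `SyG.blm`, `SyG.pjm`: the blocks and the places of the letters correspond. `SyG.pf`: the products of the earlier places. `SyG.cn`, `SyG.dj`: the prefixes and the changes `Dj` (H24/OW/Rch) at
  corresponding living letters are the same. `SyG.ka`: the functionals `ka` (H24/OW/Ka).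
* `crl`: data which correspond (`Cor`) are equal at corresponding living letters. `rhc_syg`: the constant of a cell, for a symmetry `s` of `up b v l`, `up b v' l` with `s (v k) = v' k`, `s = 1` on `sp Zc b`.
* `dj_syg`, `ka_syg`: the same for `Dj`, `ka` of the data with own letters.
-/

set_option autoImplicit false

open scoped NumberField commutatorElement
open IsDedekindDomain
open scoped Classical

noncomputable section

namespace H86.OW

open H63.MA H38.BB H38.BG H57.PC H57.BRA H77.WD H77.WE H77.PC3 H35.CF H35.UB H77.S3 H71.S3 H1.S3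
  H73.S3 H73.OW H82.S3 H12.OW H48.OW H35.OW H24.OW

open H70.OW (rhc rh1)

attribute [local instance 50] Fintype.ofFinite

section lst

variable {α β : Type}

theorem pre_filter (l : List α) (v : α) (p : α → Prop) [DecidablePred p] (hv : p v) :
    (pre l v).filter (fun w => decide (p w)) = pre (l.filter fun w => decide (p w)) v := by
  induction l with
  | nil => rfl
  | cons a l ih =>
    by_cases ha : a = v
    · subst ha
      have h1 : pre (a :: l) a = [] := by
        unfold pre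
        rw [List.takeWhile_cons, decide_eq_false (fun h => h rfl)]
        rfl
      have h2 : (a :: l).filter (fun w => decide (p w)) = a :: l.filter fun w => decide (p w) := by
        rw [List.filter_cons, if_pos (decide_eq_true hv)]
      have h3 : pre (a :: l.filter fun w => decide (p w)) a = [] := by
        unfold pre
        rw [List.takeWhile_cons, decide_eq_false (fun h => h rfl)]
        rfl
      rw [h1, h2, h3]
      rfl
    · have h1 : ∀ l' : List α, pre (a :: l') v = a :: pre l' v := by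
        intro l'
        unfold pre
        rw [List.takeWhile_cons, decide_eq_true ha]
        rfl
      rw [h1, List.filter_cons, List.filter_cons, ih]
      by_cases hp : p a
      · rw [if_pos (decide_eq_true hp), if_pos (decide_eq_true hp), h1]
      · rw [if_neg (by rw [decide_eq_true_eq]; exact hp), if_neg (by rw [decide_eq_true_eq]; exact hp)]

theorem pre_map (s : α → β) (hs : Function.Injective s) (l : List α) (v : α) :
    pre (l.map s) (s v) = (pre l v).map s := by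
  induction l with
  | nil => rfl
  | cons a l ih =>
    rw [List.map_cons]
    by_cases ha : a = v
    · subst ha
      have h1 : ∀ (γ : Type) (b : γ) (l' : List γ), pre (b :: l') b = [] := by
        intro γ b l'
        unfold pre
        rw [List.takeWhile_cons, decide_eq_false (fun h => h rfl)]
        rfl
      rw [h1, h1]
      rfl
    · have h1 : pre (a :: l) v = a :: pre l v := by
        unfold pre
        rw [List.takeWhile_cons, decide_eq_true ha]
        rfl
      have h2 : pre (s a :: l.map s) (s v) = s a :: pre (l.map s) (s v) := by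
        unfold pre
        rw [List.takeWhile_cons, decide_eq_true (hs.ne ha)]
        rfl
      rw [h1, h2, ih]
      rfl

theorem prod_filter {M : Type} [Monoid M] (p : α → Prop) [DecidablePred p] (g : α → M) (l : List α)
    (h : ∀ v ∈ l, ¬p v → g v = 1) :
    (l.map g).prod = ((l.filter fun v => decide (p v)).map g).prod := by
  induction l with
  | nil => rfl
  | cons a l ih =>
    have h1 := ih fun v hv => h v (List.mem_cons_of_mem _ hv)
    rw [List.map_cons, List.prod_cons, List.filter_cons]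
    by_cases ha : p a
    · rw [if_pos (decide_eq_true ha), List.map_cons, List.prod_cons, h1]
    · rw [if_neg (by rw [decide_eq_true_eq]; exact ha), h a List.mem_cons_self ha, one_mul, h1]

end lst

section nt

variable {K : Type} [Field K] [NumberField K] {Ω : Type} [Field Ω] [Algebra K Ω]
  {p N : ℕ} {ζ : K} {D : RD0 K p ζ} {Q : DP K Ω} {A : GS D Ω} {P : Type} [Group P]
  {c : CL p N P} {S : Type} [Group S] [MulDistribMulAction P S] {X : FD A P S} {W : WF A} {T : ℝ}
  {Zc : Finset (Pl K)} {f₁ f₂ : Pl K → Option (Px c)} {s : Equiv.Perm (Pl K)}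

/-- the places of the letters correspond -/
theorem pjm (h : SyG X W T Zc f₁ f₂ s) (G : SG c S) (B : SD D Q A) (j : Pl K ⊕ Fin A.g) :
    (adf G B X W T Zc f₂).pj (sgG A s j) = s ((adf G B X W T Zc f₁).pj j) := by
  rcases j with w | i
  · rfl
  · show B.pl i = s (B.pl i)
    rw [h.s0 _ (B.mem i)]

/-- the blocks correspond -/
theorem blm (h : SyG X W T Zc f₁ f₂ s) (G : SG c S) (B : SD D Q A) (w : Pl K) :
    (adf G B X W T Zc f₂).bl (s w) = ((adf G B X W T Zc f₁).bl w).map (sgG A s) := by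
  by_cases h0 : w ∈ D.S0
  · have hb : ∀ f : Pl K → Option (Px c), (adf G B X W T Zc f).bl w =
        ((List.finRange A.g).filter fun i => B.pl i = w).map Sum.inr := fun f => if_pos h0
    rw [h.s0 w h0, hb, hb, List.map_map]
    rfl
  · have hb : ∀ f : Pl K → Option (Px c), ∀ v, v ∉ D.S0 →
        (adf G B X W T Zc f).bl v = [Sum.inl v] := fun f v hv => if_neg hv
    rw [hb _ _ (mt (h.si w).1 h0), hb _ _ h0]
    rfl

/-- the letters of the block of a living letter are alive -/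
theorem blj (G : SG c S) (B : SD D Q A) (f : Pl K → Option (Px c)) {j : Pl K ⊕ Fin A.g}
    (hj : j ∈ (adf G B X W T Zc f).Jf) :
    ∀ i ∈ (adf G B X W T Zc f).bl ((adf G B X W T Zc f).pj j), i ∈ (adf G B X W T Zc f).Jf := by
  intro i hi
  rcases j with w | k
  · have hw : (adf G B X W T Zc f).pj (Sum.inl w) = w := rfl
    rw [hw] at hi
    by_cases h0 : w ∈ D.S0
    · have hb : (adf G B X W T Zc f).bl w =
        ((List.finRange A.g).filter fun i => B.pl i = w).map Sum.inr := if_pos h0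
      rw [hb] at hi
      obtain ⟨k, -, rfl⟩ := List.mem_map.1 hi
      exact memG_jr G B X W T Zc f k
    · have hb : (adf G B X W T Zc f).bl w = [Sum.inl w] := if_neg h0
      rw [hb, List.mem_singleton] at hi
      rw [hi]
      exact hj
  · have hw : (adf G B X W T Zc f).pj (Sum.inr k) = B.pl k := rfl
    rw [hw] at hi
    have hb : (adf G B X W T Zc f).bl (B.pl k) =
        ((List.finRange A.g).filter fun i => B.pl i = B.pl k).map Sum.inr := if_pos (B.mem k)
    rw [hb] at hi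
    obtain ⟨k, -, rfl⟩ := List.mem_map.1 hi
    exact memG_jr G B X W T Zc f k

/-- the place of a living letter is alive -/
theorem pjl (G : SG c S) (B : SD D Q A) (f : Pl K → Option (Px c)) {j : Pl K ⊕ Fin A.g}
    (hj : j ∈ (adf G B X W T Zc f).Jf) : (adf G B X W T Zc f).pj j ∈ sp Zc f ∨
      (adf G B X W T Zc f).pj j ∈ X.E ∨ (adf G B X W T Zc f).pj j ∈ D.S0 := by
  rcases j with w | k
  · rw [memG_jf] at hj
    rcases hj with hj | hj
    · exact Or.inl hj
    · exact Or.inr (Or.inl hj)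
  · exact Or.inr (Or.inr (B.mem k))

/-- the products of the earlier places -/
theorem pfm (h : SyG X W T Zc f₁ f₂ s) (G : SG c S) (B : SD D Q A) {τ₁ τ₂ : Pl K → S}
    (hτ : ∀ w, (w ∈ sp Zc f₁ ∨ w ∈ X.E ∨ w ∈ D.S0) → τ₂ (s w) = τ₁ w)
    {x₁ x₂ : Pl K ⊕ Fin A.g → SP S P}
    (hx : ∀ j ∈ (adf G B X W T Zc f₁).Jf, x₂ (sgG A s j) = x₁ j) {w : Pl K}
    (hw : w ∈ sp Zc f₁ ∨ w ∈ X.E ∨ w ∈ D.S0) :
    pf (adf G B X W T Zc f₂) τ₂ x₂ (s w) = pf (adf G B X W T Zc f₁) τ₁ x₁ w := by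
  have key : ∀ (f : Pl K → Option (Px c)) (τ : Pl K → S) (x : Pl K ⊕ Fin A.g → SP S P) (v : Pl K),
      (v ∈ sp Zc f ∨ v ∈ X.E ∨ v ∈ D.S0) → pf (adf G B X W T Zc f) τ x v =
      ((pre (W.l.filter fun w => decide (w ∈ sp Zc f ∨ w ∈ X.E ∨ w ∈ D.S0)) v).map
        fun v => cj (τ v) ((adf G B X W T Zc f).bk x v)).prod := by
    intro f τ x v hv
    have h1 := prod_filter (fun w => w ∈ sp Zc f ∨ w ∈ X.E ∨ w ∈ D.S0)
      (fun v => cj (τ v) ((adf G B X W T Zc f).bk x v)) (pre W.l v) fun v _ hv => by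
        show cj (τ v) ((adf G B X W T Zc f).bk x v) = 1
        rw [bkG_dead G B X W T Zc f x v hv]
        unfold cj
        group
    have h2 := pre_filter W.l v (fun w => w ∈ sp Zc f ∨ w ∈ X.E ∨ w ∈ D.S0) hv
    rw [h2] at h1
    exact h1
  have hw2 : s w ∈ sp Zc f₂ ∨ s w ∈ X.E ∨ s w ∈ D.S0 := by
    rcases hw with hw | hw | hw
    · exact Or.inl ((h.sp w).2 hw)
    · exact Or.inr (Or.inl ((h.ei w).2 hw))
    · exact Or.inr (Or.inr ((h.si w).2 hw))
  rw [key f₂ τ₂ x₂ (s w) hw2, key f₁ τ₁ x₁ w hw, h.l, pre_map s s.injective, List.map_map]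
  congr 1
  refine List.map_congr_left fun v hv => ?_
  have hv2 : v ∈ W.l.filter fun w => decide (w ∈ sp Zc f₁ ∨ w ∈ X.E ∨ w ∈ D.S0) := by
    unfold pre at hv
    exact (List.takeWhile_sublist _).subset hv
  rw [List.mem_filter, decide_eq_true_eq] at hv2
  show cj (τ₂ (s v)) ((adf G B X W T Zc f₂).bk x₂ (s v)) = _
  rw [hτ v hv2.2, h.bk G B x₁ x₂ hx v hv2.2]

/-- the prefixes -/
theorem cnm (h : SyG X W T Zc f₁ f₂ s) (G : SG c S) (B : SD D Q A) {τ₁ τ₂ : Pl K → S}
    (hτ : ∀ w, (w ∈ sp Zc f₁ ∨ w ∈ X.E ∨ w ∈ D.S0) → τ₂ (s w) = τ₁ w)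
    {x₁ x₂ : Pl K ⊕ Fin A.g → SP S P}
    (hx : ∀ j ∈ (adf G B X W T Zc f₁).Jf, x₂ (sgG A s j) = x₁ j) {j : Pl K ⊕ Fin A.g}
    (hj : j ∈ (adf G B X W T Zc f₁).Jf) :
    H24.OW.cn (adf G B X W T Zc f₂) τ₂ x₂ (sgG A s j) = H24.OW.cn (adf G B X W T Zc f₁) τ₁ x₁ j := by
  have hw := pjl G B f₁ hj
  unfold H24.OW.cn
  rw [pjm h G B, pfm h G B hτ hx hw, hτ _ hw, blm h G B, pre_map _ (sgG A s).injective]
  congr 1
  unfold H1.S3.wd
  rw [List.map_map]
  congr 1
  refine List.map_congr_left fun i hi => ?_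
  have hi2 : i ∈ (adf G B X W T Zc f₁).bl ((adf G B X W T Zc f₁).pj j) := by
    unfold pre at hi
    exact (List.takeWhile_sublist _).subset hi
  show ⁅(adf G B X W T Zc f₂).t (sgG A s i), x₂ (sgG A s i)⁆ = _
  rw [h.t G B i, hx i (blj G B f₁ hj i hi2)]

/-- the change of the relation -/
theorem djm (h : SyG X W T Zc f₁ f₂ s) (G : SG c S) (B : SD D Q A) {τ₁ τ₂ : Pl K → S}
    (hτ : ∀ w, (w ∈ sp Zc f₁ ∨ w ∈ X.E ∨ w ∈ D.S0) → τ₂ (s w) = τ₁ w)
    {x₁ x₂ : Pl K ⊕ Fin A.g → SP S P}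
    (hx : ∀ j ∈ (adf G B X W T Zc f₁).Jf, x₂ (sgG A s j) = x₁ j) {j : Pl K ⊕ Fin A.g}
    (hj : j ∈ (adf G B X W T Zc f₁).Jf) (u : S) :
    H24.OW.Dj (adf G B X W T Zc f₂) τ₂ x₂ (sgG A s j) u =
      H24.OW.Dj (adf G B X W T Zc f₁) τ₁ x₁ j u := by
  unfold H24.OW.Dj
  rw [cnm h G B hτ hx hj, h.t G B j, hx j hj]

end nt

section own

variable {K : Type} [Field K] [NumberField K] {Ω : Type} [Field Ω] [Algebra K Ω]
  {p N : ℕ} {ζ : K} {D : RD0 K p ζ} {Q : DP K Ω} {A : GS D Ω} {P : Type} [Group P]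
  {hp : p.Prime} {c : CL p N P} {M : ℕ} {Pa : Par} {G : SG c (Sp Pa (Px c))}
  {G' : SG (cO hp c M) (So hp c M Pa)}
  {B : SD D Q A} {X : FD A P (Sp Pa (Px c))} {W : WF A} {T : ℝ} {Zc : Finset (Pl K)} {q d : ℕ}
  {n : ℕ} {l : Fin n → Px (cO hp c M)} {b : Pl K → Option (Px (cO hp c M))} {v v' : Fin n → Pl K}
  {s : Equiv.Perm (Pl K)}

/-- data which correspond are equal at corresponding living letters -/
theorem crl (h : SyG X W T Zc (up b v l) (up b v' l) s) (s1 : ∀ k, s (v k) = v' k)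
    (s2 : ∀ w ∈ sp Zc b, s w = w) {α : Type} {F F' : Pl K ⊕ Fin A.g → α}
    (hF : Cor A Zc X.E b v v' F F') :
    ∀ j ∈ (adf G' B (fdo hp c M X) W T Zc (up b v l)).Jf, F' (sgG A s j) = F j := by
  intro j hj
  rcases j with w | i
  · rw [memG_jf] at hj
    rw [sgG_inl]
    rcases hj with hj | hj
    · by_cases h1 : ∃ k, v k = w
      · obtain ⟨k, rfl⟩ := h1
        rw [s1, hF.k]
      · push Not at h1
        rw [mem_sp, up_ne b v l _ h1] at hj
        have hj := mem_sp.2 hj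
        rw [s2 w hj, hF.f w (Or.inl hj)]
    · have hj : w ∈ X.E := hj
      rw [h.e w hj, hF.f w (Or.inr hj)]
  · rw [sgG_inr, hF.r]

/-- conjugators which correspond -/
theorem crt (h : SyG X W T Zc (up b v l) (up b v' l) s) (s1 : ∀ k, s (v k) = v' k)
    (s2 : ∀ w ∈ sp Zc b, s w = w) {α : Type} {τ τ' : Pl K → α} (ht : ∀ k, τ' (v' k) = τ (v k))
    (ht' : ∀ w, w ∈ sp Zc b ∨ w ∈ X.E ∨ w ∈ D.S0 → τ' w = τ w) :
    ∀ w, (w ∈ sp Zc (up b v l) ∨ w ∈ X.E ∨ w ∈ D.S0) → τ' (s w) = τ w := by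
  intro w hw
  rcases hw with hw | hw | hw
  · by_cases h1 : ∃ k, v k = w
    · obtain ⟨k, rfl⟩ := h1
      rw [s1, ht]
    · push Not at h1
      rw [mem_sp, up_ne b v l _ h1] at hw
      have hw := mem_sp.2 hw
      rw [s2 w hw, ht' w (Or.inl hw)]
  · rw [h.e w hw, ht' w (Or.inr (Or.inl hw))]
  · rw [h.s0 w hw, ht' w (Or.inr (Or.inr hw))]

/-- THE CONSTANT OF A CELL under a symmetry. Letters of the group with own letters: `up b v l`; letters of `S`: their images. -/
theorem rhc_syg (h : SyG X W T Zc (up b v l) (up b v' l) s) (s1 : ∀ k, s (v k) = v' k)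
    (s2 : ∀ w ∈ sp Zc b, s w = w) (psi : So hp c M Pa → ZMod q) {τ τ' : Pl K → So hp c M Pa}
    (ht : ∀ k, τ' (v' k) = τ (v k)) (ht' : ∀ w, w ∈ sp Zc b ∨ w ∈ X.E ∨ w ∈ D.S0 → τ' w = τ w)
    {x x' : Pl K ⊕ Fin A.g → SP (So hp c M Pa) (P × Ci p M)} (hx : Cor A Zc X.E b v v' x x')
    {e e' : Pl K ⊕ Fin A.g → El2 (Sp Pa (Px c)) P q d} (he : Cor A Zc X.E b v v' e e')
    {η η' : Pl K ⊕ Fin A.g → Du (So hp c M Pa) q d × Du (So hp c M Pa) q (d + 1)}
    (hη : Cor A Zc X.E b v v' η η') {f f' : Pl K → Option (Px c)}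
    {g g' : Pl K → Option (Px (cO hp c M))} (hg : g = up b v l) (hg' : g' = up b v' l)
    (hf : f = fe g) (hf' : f' = fe g') :
    rhc (adf G B X W T Zc f') (adf G' B (fdo hp c M X) W T Zc g') (EV hp c M Pa) psi τ' x' e' η' =
      rhc (adf G B X W T Zc f) (adf G' B (fdo hp c M X) W T Zc g) (EV hp c M Pa) psi τ x e η := by
  subst hg hg' hf hf'
  have h2 : SyG X W T Zc (fe (up b v l)) (fe (up b v' l)) s := h.map fs
  have h3 : SyG (fdo hp c M X) W T Zc (up b v l) (up b v' l) s := syg_fdo h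
  have hJ : (adf G' B (fdo hp c M X) W T Zc (up b v l)).Jf = (adf G B X W T Zc (fe (up b v l))).Jf :=
    ado_jf
  have kx := crl (G' := G') (B := B) h s1 s2 hx
  have ke := crl (G' := G') (B := B) h s1 s2 he
  have kh := crl (G' := G') (B := B) h s1 s2 hη
  refine rhc_tr (sgG A s) (h2.jf G B) (fun j _ => h2.pp G B j) (EV hp c M Pa) psi ?_
    (fun j hj => kx j (by rw [hJ]; exact hj)) (fun j hj => ke j (by rw [hJ]; exact hj))
    (fun j hj => kh j (by rw [hJ]; exact hj))
  exact (h3.tr G' B τ τ' (crt h s1 s2 ht ht')).RR x x' kx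

/-- the change of the relation for the data with own letters -/
theorem dj_syg (h : SyG X W T Zc (up b v l) (up b v' l) s) (s1 : ∀ k, s (v k) = v' k)
    (s2 : ∀ w ∈ sp Zc b, s w = w) {τ τ' : Pl K → So hp c M Pa}
    (ht : ∀ k, τ' (v' k) = τ (v k)) (ht' : ∀ w, w ∈ sp Zc b ∨ w ∈ X.E ∨ w ∈ D.S0 → τ' w = τ w)
    {x x' : Pl K ⊕ Fin A.g → SP (So hp c M Pa) (P × Ci p M)} (hx : Cor A Zc X.E b v v' x x')
    {g g' : Pl K → Option (Px (cO hp c M))} (hg : g = up b v l) (hg' : g' = up b v' l)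
    {j : Pl K ⊕ Fin A.g} (hj : j ∈ (adf G' B (fdo hp c M X) W T Zc g).Jf) (u : So hp c M Pa) :
    H24.OW.Dj (adf G' B (fdo hp c M X) W T Zc g') τ' x' (sgG A s j) u =
      H24.OW.Dj (adf G' B (fdo hp c M X) W T Zc g) τ x j u := by
  subst hg hg'
  exact djm (syg_fdo h) G' B (crt h s1 s2 ht ht') (crl (G' := G') (B := B) h s1 s2 hx) hj u

/-- the functionals `ka` -/
theorem ka_syg (h : SyG X W T Zc (up b v l) (up b v' l) s) (s1 : ∀ k, s (v k) = v' k)
    (s2 : ∀ w ∈ sp Zc b, s w = w) (ev : So hp c M Pa →* Sp Pa (Px c))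
    (psi : So hp c M Pa → ZMod q) {τ τ' : Pl K → So hp c M Pa}
    (ht : ∀ k, τ' (v' k) = τ (v k)) (ht' : ∀ w, w ∈ sp Zc b ∨ w ∈ X.E ∨ w ∈ D.S0 → τ' w = τ w)
    {x x' : Pl K ⊕ Fin A.g → SP (So hp c M Pa) (P × Ci p M)} (hx : Cor A Zc X.E b v v' x x')
    {ze ze' : Pl K ⊕ Fin A.g → Dz (Sp Pa (Px c)) q d × Dz (Sp Pa (Px c)) q (d + 1)}
    (hz : Cor A Zc X.E b v v' ze ze')
    {g g' : Pl K → Option (Px (cO hp c M))} (hg : g = up b v l) (hg' : g' = up b v' l)
    {j : Pl K ⊕ Fin A.g} (hj : j ∈ (adf G' B (fdo hp c M X) W T Zc g).Jf) (u : So hp c M Pa) :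
    ka ev psi (adf G' B (fdo hp c M X) W T Zc g') τ' x' ze' (sgG A s j) u =
      ka ev psi (adf G' B (fdo hp c M X) W T Zc g) τ x ze j u := by
  have h1 := dj_syg (G' := G') (B := B) h s1 s2 ht ht' hx hg hg' hj u
  subst hg hg'
  have h2 : (adf G' B (fdo hp c M X) W T Zc (up b v' l)).pp (sgG A s j) ↔
      (adf G' B (fdo hp c M X) W T Zc (up b v l)).pp j := (syg_fdo h).pp G' B j
  unfold ka
  rw [h1, crl (G' := G') (B := B) h s1 s2 hz j hj, if_congr h2 rfl rfl]

end own

end H86.OW
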