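import Pool.Agent.H48.OW.Cls
import Pool.Agent.H86.OW.Rsy
import Pool.Agent.H35.OW.Sy2

/-!
# [H86 OW CTE] MP_b39724_nt, theorem OW, (c3): the data of a class of tuples

Definitions of H48/OW/Cls. `h : SyG X W T Zc f₁ f₂ s` a symmetry of configurations with labels `Elb2`, `s (v₁ k) = v₂ k`.
* `ixv_s`: the own indices. `sp_gq`, `syg_gq`: the configurations with own letters correspond. `jf_gq`. `tq_s`, `ef_s`: conjugators, functionals.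
* `rr_s`: the relation. `eta_s`: the one layer family `eta` of H12/OW/Eta for `ka` of H24/OW/Ka. `rhc_s`: the constant of a cell.
* `x0q_s`: the values `x0q` of the class of `v₀` at the letters of `up b v l` are the values at `v₀`. `c3_rr`, `c3_eta`, `c3_rhc`: the same for `x0q`.
-/

set_option autoImplicit false

open scoped NumberField commutatorElement
open IsDedekindDomain
open scoped Classical

noncomputable section

namespace H86.OW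

open H63.MA H38.BB H38.BG H57.PC H57.BRA H77.WD H77.WE H77.PC3 H35.CF H35.UB H77.S3 H71.S3 H1.S3
  H73.S3 H73.OW H82.S3 H12.OW H48.OW H35.OW H24.OW

open H70.OW (rhc rh1)

open H93.OW (ixv ixv_of ixv_ne ixv_some ixv_none)

attribute [local instance 50] Fintype.ofFinite

theorem ixv_s {V : Type} {M : ℕ} {v₁ v₂ : Fin M → V} (hv₁ : Function.Injective v₁)
    (hv₂ : Function.Injective v₂) {s : Equiv.Perm V} (s1 : ∀ k, s (v₁ k) = v₂ k) (w : V) :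
    ixv v₂ (s w) = ixv v₁ w := by
  by_cases h : ∃ k, v₁ k = w
  · obtain ⟨k, rfl⟩ := h
    rw [s1, ixv_of hv₁, ixv_of hv₂]
  · push Not at h
    rw [ixv_ne h, ixv_ne fun k hk => h k (s.injective ((s1 k).trans hk))]

section nt

variable {K : Type} [Field K] [NumberField K] {Ω : Type} [Field Ω] [Algebra K Ω]
  {p N : ℕ} {ζ : K} {D : RD0 K p ζ} {Q : DP K Ω} {A : GS D Ω} {P : Type} [Group P] {hp : p.Prime}
  {c : CL p N P} {Pa : Par} {q d : ℕ}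
  {X : FD A P (Sp Pa (Px c))} {W : WF A} {T : ℝ} {Zc : Finset (Pl K)}

theorem sp_lf2 (Z : Finset (Pl K)) (f : Pl K → Option (Elb2 c (Sp Pa (Px c)) q d)) :
    sp Z (lf2 f) = sp Z f := by
  ext w
  rw [mem_sp, mem_sp]
  unfold lf2
  rw [ne_eq, Option.map_eq_none_iff]

theorem sp_gq (Z : Finset (Pl K)) (f : Pl K → Option (Elb2 c (Sp Pa (Px c)) q d))
    (v : Fin (d + 1) → Pl K) : sp Z (gq hp f v) = sp Z f := by
  unfold gq
  rw [H93.OW.sp_rc, sp_lf2]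

section s

variable {f₁ f₂ : Pl K → Option (Elb2 c (Sp Pa (Px c)) q d)} {s : Equiv.Perm (Pl K)}
  (h : SyG X W T Zc f₁ f₂ s) {v₁ v₂ : Fin (d + 1) → Pl K} (hv₁ : Function.Injective v₁)
  (hv₂ : Function.Injective v₂) (s1 : ∀ k, s (v₁ k) = v₂ k)

include h hv₁ hv₂ s1 in
/-- the configurations with own letters correspond -/
theorem syg_gq : SyG (fdo hp c (d + 1) X) W T Zc (gq hp f₁ v₁) (gq hp f₂ v₂) s := by
  have h1 : SyG X W T Zc (gq hp f₁ v₁) (gq hp f₂ v₂) s :=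
    { f := fun w => by
        show (lf2 f₂ (s w)).map (fun a => mkx a (ixv v₂ (s w))) = (lf2 f₁ w).map fun a => mkx a (ixv v₁ w)
        rw [ixv_s hv₁ hv₂ s1]
        unfold lf2
        rw [h.f]
      z := h.z
      e := h.e
      s0 := h.s0
      n := fun w hw => by
        rw [sp_gq] at hw
        exact h.n w hw
      p := fun w hw => by
        rw [sp_gq] at hw
        exact h.p w hw
      l := by
        simp only [sp_gq]
        exact h.l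
      ze := h.ze }
  exact syg_fdo h1

include h in
/-- the conjugators correspond -/
theorem tq_s (τ₀ : Pl K → Sp Pa (Px c)) (w : Pl K)
    (hw : w ∈ sp Zc f₁ ∨ w ∈ X.E ∨ w ∈ D.S0) : tq hp τ₀ f₂ (s w) = tq hp τ₀ f₁ w := by
  have h1 : tf2 τ₀ f₂ (s w) = tf2 τ₀ f₁ w := h.tf τ₀ w hw
  unfold tq
  rw [h1]

theorem jf_gq (G : SG c (Sp Pa (Px c))) (G' : SG (cO hp c (d + 1)) (So hp c (d + 1) Pa))
    (B : SD D Q A) (f : Pl K → Option (Elb2 c (Sp Pa (Px c)) q d)) (v : Fin (d + 1) → Pl K) :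
    (Yq G' B X W T Zc f v).Jf = (adf G B X W T Zc (lf2 f)).Jf := by
  have h1 : (Yq G' B X W T Zc f v).Jf = (adf G B X W T Zc (fe (gq hp f v))).Jf := ado_jf
  rw [h1, fe_gq]

theorem pp_gq (G : SG c (Sp Pa (Px c))) (G' : SG (cO hp c (d + 1)) (So hp c (d + 1) Pa))
    (B : SD D Q A) (f : Pl K → Option (Elb2 c (Sp Pa (Px c)) q d)) (v : Fin (d + 1) → Pl K)
    (j : Pl K ⊕ Fin A.g) :
    (Yq G' B X W T Zc f v).pp j ↔ (adf G B X W T Zc (lf2 f)).pp j := by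
  have h1 : (Yq G' B X W T Zc f v).pp j ↔ (adf G B X W T Zc (fe (gq hp f v))).pp j := ado_pp j
  rw [h1, fe_gq]

include h in
/-- the functionals correspond -/
theorem ef_s {G' : SG (cO hp c (d + 1)) (So hp c (d + 1) Pa)} {B : SD D Q A}
    (e₀ : Pl K ⊕ Fin A.g → El2 (Sp Pa (Px c)) P q d) {j : Pl K ⊕ Fin A.g}
    (hj : j ∈ (Yq G' B X W T Zc f₁ v₁).Jf) :
    ef2 e₀ f₂ (sgG A s j) = ef2 e₀ f₁ j := by
  rcases j with w | i
  · rw [memG_jf, sp_gq] at hj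
    show (f₂ (s w)).elim (e₀ (Sum.inl (s w))) (fun a => a.2.2.1) =
      (f₁ w).elim (e₀ (Sum.inl w)) fun a => a.2.2.1
    rw [h.f]
    rcases hj with hw | hw
    · obtain ⟨a, ha⟩ := Option.ne_none_iff_exists'.1 (mem_sp.1 hw).2
      rw [ha]
      rfl
    · have hw : w ∈ X.E := hw
      rw [h.e w hw]
  · rfl

variable (G' : SG (cO hp c (d + 1)) (So hp c (d + 1) Pa)) (B : SD D Q A)
  (τ₀ : Pl K → Sp Pa (Px c)) {x₁ x₂ : Pl K ⊕ Fin A.g → SP (So hp c (d + 1) Pa) (P × Ci p (d + 1))}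
  (hx : ∀ j ∈ (Yq G' B X W T Zc f₁ v₁).Jf, x₂ (sgG A s j) = x₁ j)

include h hv₁ hv₂ s1 hx in
/-- the relation -/
theorem rr_s : (Yq G' B X W T Zc f₂ v₂).RR (tq hp τ₀ f₂) x₂ =
    (Yq G' B X W T Zc f₁ v₁).RR (tq hp τ₀ f₁) x₁ :=
  ((syg_gq h hv₁ hv₂ s1).tr G' B (tq hp τ₀ f₁) (tq hp τ₀ f₂) fun w hw => tq_s h τ₀ w (by
    rw [sp_gq] at hw
    exact hw)).RR x₁ x₂ hx

include h hv₁ hv₂ s1 hx in
/-- the changes of the relation -/
theorem dj_s {j : Pl K ⊕ Fin A.g} (hj : j ∈ (Yq G' B X W T Zc f₁ v₁).Jf)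
    (u : So hp c (d + 1) Pa) :
    H24.OW.Dj (Yq G' B X W T Zc f₂ v₂) (tq hp τ₀ f₂) x₂ (sgG A s j) u =
      H24.OW.Dj (Yq G' B X W T Zc f₁ v₁) (tq hp τ₀ f₁) x₁ j u :=
  djm (syg_gq h hv₁ hv₂ s1) G' B (fun w hw => tq_s h τ₀ w (by
    rw [sp_gq] at hw
    exact hw)) hx hj u

include h hv₁ hv₂ s1 hx in
/-- the functionals `ka` -/
theorem ka_s (psi : So hp c (d + 1) Pa → ZMod q) (e₀ : Pl K ⊕ Fin A.g → El2 (Sp Pa (Px c)) P q d)
    {j : Pl K ⊕ Fin A.g} (hj : j ∈ (Yq G' B X W T Zc f₁ v₁).Jf) :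
    ka ((owl hp c (d + 1)).ev Pa) psi (Yq G' B X W T Zc f₂ v₂) (tq hp τ₀ f₂) x₂
        (fun j => (ef2 e₀ f₂ j).1) (sgG A s j) =
      ka ((owl hp c (d + 1)).ev Pa) psi (Yq G' B X W T Zc f₁ v₁) (tq hp τ₀ f₁) x₁
        (fun j => (ef2 e₀ f₁ j).1) j := by
  funext u
  have h2 : (Yq G' B X W T Zc f₂ v₂).pp (sgG A s j) ↔ (Yq G' B X W T Zc f₁ v₁).pp j :=
    (syg_gq h hv₁ hv₂ s1).pp G' B j
  unfold ka
  rw [dj_s h hv₁ hv₂ s1 G' B τ₀ hx hj u]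
  beta_reduce
  rw [ef_s h e₀ hj, if_congr h2 rfl rfl]

include h hv₁ hv₂ s1 hx in
/-- the one layer family -/
theorem eta_s (psi : So hp c (d + 1) Pa → ZMod q) (e₀ : Pl K ⊕ Fin A.g → El2 (Sp Pa (Px c)) P q d)
    {j : Pl K ⊕ Fin A.g} (hj : j ∈ (Yq G' B X W T Zc f₁ v₁).Jf) :
    ((owl hp c (d + 1)).eta Pa (Yq G' B X W T Zc f₂ v₂) (ixv v₂)
        (ka ((owl hp c (d + 1)).ev Pa) psi (Yq G' B X W T Zc f₂ v₂) (tq hp τ₀ f₂) x₂
          fun j => (ef2 e₀ f₂ j).1) (sgG A s j) :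
        Du (So hp c (d + 1) Pa) q d × Du (So hp c (d + 1) Pa) q (d + 1)) =
      (owl hp c (d + 1)).eta Pa (Yq G' B X W T Zc f₁ v₁) (ixv v₁)
        (ka ((owl hp c (d + 1)).ev Pa) psi (Yq G' B X W T Zc f₁ v₁) (tq hp τ₀ f₁) x₁
          fun j => (ef2 e₀ f₁ j).1) j := by
  have h2 : (Yq G' B X W T Zc f₂ v₂).pp (sgG A s j) ↔ (Yq G' B X W T Zc f₁ v₁).pp j :=
    (syg_gq h hv₁ hv₂ s1).pp G' B j
  have h3 : (Yq G' B X W T Zc f₂ v₂).pj (sgG A s j) = s ((Yq G' B X W T Zc f₁ v₁).pj j) :=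
    pjm (syg_gq h hv₁ hv₂ s1) G' B j
  have h4 : H12.OW.Tv (ixv v₂) (s ((Yq G' B X W T Zc f₁ v₁).pj j)) =
      H12.OW.Tv (ixv v₁) ((Yq G' B X W T Zc f₁ v₁).pj j) := by
    unfold H12.OW.Tv
    rw [ixv_s hv₁ hv₂ s1]
  unfold OwL.eta
  rw [h3, h4, ka_s h hv₁ hv₂ s1 G' B τ₀ hx psi e₀ hj, if_congr h2 rfl rfl]

include h hv₁ hv₂ s1 hx in
/-- the constant of a cell -/
theorem rhc_s (G : SG c (Sp Pa (Px c))) (psi : So hp c (d + 1) Pa → ZMod q)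
    (e₀ : Pl K ⊕ Fin A.g → El2 (Sp Pa (Px c)) P q d)
    {η₁ η₂ : Pl K ⊕ Fin A.g → Du (So hp c (d + 1) Pa) q d × Du (So hp c (d + 1) Pa) q (d + 1)}
    (hη : ∀ j ∈ (Yq G' B X W T Zc f₁ v₁).Jf, η₂ (sgG A s j) = η₁ j) :
    rhc (adx2 G B X W T Zc f₂) (Yq G' B X W T Zc f₂ v₂) (EV hp c (d + 1) Pa) psi (tq hp τ₀ f₂) x₂
        (ef2 e₀ f₂) η₂ =
      rhc (adx2 G B X W T Zc f₁) (Yq G' B X W T Zc f₁ v₁) (EV hp c (d + 1) Pa) psi (tq hp τ₀ f₁) x₁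
        (ef2 e₀ f₁) η₁ := by
  have h2 : SyG X W T Zc (lf2 f₁) (lf2 f₂) s := h.map fun a => a.1
  have hJ := jf_gq (X := X) (W := W) (T := T) (Zc := Zc) G G' B f₁ v₁
  refine rhc_tr (sgG A s) (h2.jf G B) (fun j _ => h2.pp G B j) (EV hp c (d + 1) Pa) psi
    (rr_s h hv₁ hv₂ s1 G' B τ₀ hx) (fun j hj => hx j (by rw [hJ]; exact hj))
    (fun j hj => ef_s (G' := G') (B := B) (v₁ := v₁) h e₀ (by rw [hJ]; exact hj))
    (fun j hj => hη j (by rw [hJ]; exact hj))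

end s

section cl

variable {b : Pl K → Option (Elb2 c (Sp Pa (Px c)) q d)} {l : Fin (d + 1) → Elb2 c (Sp Pa (Px c)) q d}
  {v₀ v : Fin (d + 1) → Pl K} {s : Equiv.Perm (Pl K)}
  (h : SyG X W T Zc (up b v₀ l) (up b v l) s) (hv₀ : v₀ ∈ H35.CF.Fr Zc (PPc X W T) b (d + 1))
  (hv : v ∈ H35.CF.Fr Zc (PPc X W T) b (d + 1)) (s1 : ∀ k, s (v₀ k) = v k)
  (s2 : ∀ w ∈ sp Zc b, s w = w)
  (G' : SG (cO hp c (d + 1)) (So hp c (d + 1) Pa)) (B : SD D Q A) (τ₀ : Pl K → Sp Pa (Px c))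

include h hv s1 s2 in
/-- the values of the class at the letters of `up b v l` -/
theorem x0q_s {j : Pl K ⊕ Fin A.g} (hj : j ∈ (Yq G' B X W T Zc (up b v₀ l) v₀).Jf) :
    x0q G' B X W T Zc τ₀ b l v₀ v (sgG A s j) = xq G' B X W T Zc τ₀ (up b v₀ l) v₀ j := by
  obtain ⟨hv1, hvi⟩ := mem_fr.1 hv
  rcases j with w | i
  · rw [memG_jf, sp_gq] at hj
    rw [sgG_inl]
    show (ixv v (s w)).elim (xq G' B X W T Zc τ₀ (up b v₀ l) v₀ (Sum.inl (s w)))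
      (fun k => xq G' B X W T Zc τ₀ (up b v₀ l) v₀ (Sum.inl (v₀ k))) = _
    by_cases h1 : ∃ k, v₀ k = w
    · obtain ⟨k, rfl⟩ := h1
      rw [s1, ixv_of hvi]
      rfl
    · push Not at h1
      have h2 : ∀ k, v k ≠ s w := fun k hk => h1 k (s.injective ((s1 k).trans hk))
      have h3 : s w = w := by
        rcases hj with hj | hj
        · rw [mem_sp, up_ne b v₀ l _ h1] at hj
          exact s2 w (mem_sp.2 hj)
        · exact h.e w hj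
      rw [ixv_ne h2, h3]
      rfl
  · rfl

include h hv₀ hv s1 s2 in
/-- the relation at the values of the class -/
theorem c3_rr : (Yq G' B X W T Zc (up b v l) v).RR (tq hp τ₀ (up b v l))
      (x0q G' B X W T Zc τ₀ b l v₀ v) =
    (Yq G' B X W T Zc (up b v₀ l) v₀).RR (tq hp τ₀ (up b v₀ l))
      (xq G' B X W T Zc τ₀ (up b v₀ l) v₀) :=
  rr_s h (mem_fr.1 hv₀).2 (mem_fr.1 hv).2 s1 G' B τ₀ fun _ hj => x0q_s h hv s1 s2 G' B τ₀ hj

include h hv₀ hv s1 s2 in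
/-- the one layer family at the values of the class -/
theorem c3_eta (psi : So hp c (d + 1) Pa → ZMod q) (e₀ : Pl K ⊕ Fin A.g → El2 (Sp Pa (Px c)) P q d)
    {j : Pl K ⊕ Fin A.g} (hj : j ∈ (Yq G' B X W T Zc (up b v₀ l) v₀).Jf) :
    (owl hp c (d + 1)).eta Pa (Yq G' B X W T Zc (up b v l) v) (ixv v)
        (ka ((owl hp c (d + 1)).ev Pa) psi (Yq G' B X W T Zc (up b v l) v) (tq hp τ₀ (up b v l))
          (x0q G' B X W T Zc τ₀ b l v₀ v) fun j => (ef2 e₀ (up b v l) j).1) (sgG A s j) =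
      etq G' B X W T Zc psi τ₀ e₀ (up b v₀ l) v₀ j :=
  eta_s h (mem_fr.1 hv₀).2 (mem_fr.1 hv).2 s1 G' B τ₀ (fun _ hj => x0q_s h hv s1 s2 G' B τ₀ hj)
    psi e₀ hj

include h hv₀ hv s1 s2 in
/-- the constant of a cell at the values of the class -/
theorem c3_rhc (G : SG c (Sp Pa (Px c))) (psi : So hp c (d + 1) Pa → ZMod q)
    (e₀ : Pl K ⊕ Fin A.g → El2 (Sp Pa (Px c)) P q d)
    {η : Pl K ⊕ Fin A.g → Du (So hp c (d + 1) Pa) q d × Du (So hp c (d + 1) Pa) q (d + 1)}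
    (hη : ∀ j ∈ (Yq G' B X W T Zc (up b v l) v).Jf,
      η j = (owl hp c (d + 1)).eta Pa (Yq G' B X W T Zc (up b v l) v) (ixv v)
        (ka ((owl hp c (d + 1)).ev Pa) psi (Yq G' B X W T Zc (up b v l) v) (tq hp τ₀ (up b v l))
          (x0q G' B X W T Zc τ₀ b l v₀ v) fun j => (ef2 e₀ (up b v l) j).1) j) :
    rhc (adx2 G B X W T Zc (up b v l)) (Yq G' B X W T Zc (up b v l) v) (EV hp c (d + 1) Pa) psi
        (tq hp τ₀ (up b v l)) (x0q G' B X W T Zc τ₀ b l v₀ v) (ef2 e₀ (up b v l)) η =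
      rhc (adx2 G B X W T Zc (up b v₀ l)) (Yq G' B X W T Zc (up b v₀ l) v₀) (EV hp c (d + 1) Pa) psi
        (tq hp τ₀ (up b v₀ l)) (xq G' B X W T Zc τ₀ (up b v₀ l) v₀) (ef2 e₀ (up b v₀ l))
        (etq G' B X W T Zc psi τ₀ e₀ (up b v₀ l) v₀) := by
  refine rhc_s h (mem_fr.1 hv₀).2 (mem_fr.1 hv).2 s1 G' B τ₀
    (fun _ hj => x0q_s h hv s1 s2 G' B τ₀ hj) G psi e₀ fun j hj => ?_
  rw [hη _ (((syg_gq h (mem_fr.1 hv₀).2 (mem_fr.1 hv).2 s1).jf G' B j).1 hj)]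
  exact c3_eta h hv₀ hv s1 s2 G' B τ₀ psi e₀ hj

end cl

end nt

end H86.OW
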