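import Pool.Agent.H48.OW.Cfo
import Pool.Agent.H97.OW.Def

/-!
# [H86 OW MCL] MP_b39724_nt, theorem OW, (b5''): membership in a cell

* `mem_cl`: `KL {k}ᶜ x = KL {k}ᶜ y` for all `k ∈ T` (`T` not empty) iff `x = il g * y` with `g ∈ Kk T`.
* `tj_ne`: the set `Tj r j` of the own indices different from that of the letter `j` is not empty for `2 ≤ M`, `r` injective.
* `cel_mem`: membership in a cell for all letters: one condition for every own index `k`.
* `kl_ki`: `KL {k}ᶜ` (H48/OW/Fdo) is `KI k` (H97/OW/Def).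
-/

set_option autoImplicit false

open scoped NumberField commutatorElement
open IsDedekindDomain
open scoped Classical

noncomputable section

namespace H86.OW

open H63.MA H38.BB H38.BG H57.PC H57.BRA H77.WD H77.WE H77.PC3 H35.CF H35.UB H77.S3 H71.S3 H1.S3
  H73.S3 H82.S3 H12.OW H48.OW

section mem

variable {p N : ℕ} {P : Type} [Group P] {hp : p.Prime} {c : CL p N P} {M : ℕ} {Pa : Par}

theorem kl_cp (k : Fin M) (x : So hp c M Pa) :
    (owl hp c M).kl Pa {k}ᶜ x = (owl hp c M).ki Pa k x := by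
  rw [← OwL.kl_compl]
  congr!

/-- membership in a cell, one letter -/
theorem mem_cl {T : Finset (Fin M)} (hT : T.Nonempty) (x y : SP (So hp c M Pa) (P × Ci p M)) :
    (∀ k ∈ T, KL hp c M Pa {k}ᶜ x = KL hp c M Pa {k}ᶜ y) ↔
      ∃ g ∈ (owl hp c M).Kk Pa T, x = il g * y := by
  constructor
  · intro h
    obtain ⟨k, hk⟩ := hT
    have hr : x.right = y.right := by
      have h1 := congrArg (fun z : SP (So hp c M Pa) (P × Ci p M) => z.right) (h k hk)
      simp only [KL_right] at h1
      exact h1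
    have h2 : x = il (x * y⁻¹).left * y := by
      have h3 : (x * y⁻¹) = il (x * y⁻¹).left := by
        refine SemidirectProduct.ext rfl ?_
        show x.right * y⁻¹.right = 1
        rw [SemidirectProduct.inv_right, hr, mul_inv_cancel]
      rw [← h3, inv_mul_cancel_right]
    refine ⟨(x * y⁻¹).left, fun k hk => ?_, h2⟩
    have h4 : KL hp c M Pa {k}ᶜ (x * y⁻¹) = 1 := by
      rw [map_mul, map_inv, h k hk, mul_inv_cancel]
    have h5 := congrArg (fun z : SP (So hp c M Pa) (P × Ci p M) => z.left) h4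
    simp only [KL_left, kl_cp] at h5
    exact h5
  · rintro ⟨g, hg, rfl⟩ k hk
    rw [map_mul, KL_il, kl_cp, hg k hk, H71.S3.il_one, one_mul]

end mem

section tj

variable {M : ℕ} {J : Type}

/-- the other own indices -/
theorem tj_ne (hM : 2 ≤ M) {r : Fin M → J} (hr : Function.Injective r) (j : J) :
    (H97.OW.Tj r j).Nonempty := by
  have h0 : (⟨0, by omega⟩ : Fin M) ≠ ⟨1, by omega⟩ := by
    intro h
    have := congrArg Fin.val h
    simp at this
  by_cases h : r ⟨0, by omega⟩ = j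
  · refine ⟨⟨1, by omega⟩, ?_⟩
    unfold H97.OW.Tj
    rw [Finset.mem_filter]
    refine ⟨Finset.mem_univ _, fun h1 => h0 (hr (h.trans h1.symm))⟩
  · refine ⟨⟨0, by omega⟩, ?_⟩
    unfold H97.OW.Tj
    rw [Finset.mem_filter]
    exact ⟨Finset.mem_univ _, h⟩

end tj

section cel

variable {p N : ℕ} {P : Type} [Group P] {hp : p.Prime} {c : CL p N P} {M : ℕ} {Pa : Par} {J : Type}

theorem kl_ki (k : Fin M) : KL hp c M Pa {k}ᶜ = H97.OW.KI (owl hp c M) Pa k := by
  refine MonoidHom.ext fun x => SemidirectProduct.ext ?_ ?_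
  · rw [KL_left, H97.OW.KI_left, kl_cp]
  · rw [KL_right, H97.OW.KI_right]

/-- MEMBERSHIP IN A CELL: one condition for every own index -/
theorem cel_mem (hM : 2 ≤ M) {r : Fin M → J} (hr : Function.Injective r) (s : Finset J)
    (x y : J → SP (So hp c M Pa) (P × Ci p M)) :
    (∀ j ∈ s, ∃ g ∈ (owl hp c M).Kk Pa (H97.OW.Tj r j), x j = il g * y j) ↔
      ∀ k, ∀ j ∈ s, r k ≠ j → KL hp c M Pa {k}ᶜ (x j) = KL hp c M Pa {k}ᶜ (y j) := by
  have h1 : ∀ j k, k ∈ H97.OW.Tj r j ↔ r k ≠ j := by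
    intro j k
    unfold H97.OW.Tj
    rw [Finset.mem_filter]
    exact and_iff_right (Finset.mem_univ k)
  constructor
  · intro h k j hj hk
    exact (mem_cl (tj_ne hM hr j) _ _).2 (h j hj) k ((h1 j k).2 hk)
  · intro h j hj
    exact (mem_cl (tj_ne hM hr j) _ _).1 fun k hk => h k j hj ((h1 j k).1 hk)

end cel

end H86.OW
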