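import Pool.Agent.H70.OW.Clk
import Pool.Agent.H48.OW.Cfo
import Pool.Agent.H62.OW.Sy
import Pool.Agent.H35.OW.Syg

/-!
# [H86 OW ROE] MP_b39724_nt, theorem OW, (b5'): the constant of a cell depends on the order only

* `rhc_tr`: `rhc` (H70/OW/Clk) for two pairs of frames which correspond under a permutation of the letters.
* `syg_of`: `Sy` (H62/OW/Sy) gives `SyG` (H35/OW/Syg). `SyG.fdo`: the symmetry for the data `fdo` of the group with own letters.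
* `rhc_oe`: `rhc` is the same for the tuples `v`, `v'` with `Oe Zc b v v'`. The data of the cell correspond: equal at `v k` and `v' k`, equal at the other living places.
-/

set_option autoImplicit false

open scoped NumberField commutatorElement
open IsDedekindDomain
open scoped Classical

noncomputable section

namespace H86.OW

open H63.MA H38.BB H38.BG H57.PC H57.BRA H77.WD H77.WE H77.PC3 H35.CF H35.UB H77.S3 H71.S3 H1.S3
  H73.S3 H73.OW H82.S3 H12.OW H48.OW H35.OW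

open H70.OW (rhc rh1)

attribute [local instance 50] Fintype.ofFinite

section tr

variable {S P St Pt : Type} [Group S] [Group P] [MulDistribMulAction P S] [Group St] [Group Pt]
  [MulDistribMulAction Pt St] {J V : Type} {q d : ℕ}

/-- the constant of a cell for data which correspond -/
theorem rhc_tr {X₁ X₂ : AD S P J V} {Y₁ Y₂ : AD St Pt J V} (σ : Equiv.Perm J)
    (hjf : ∀ j, j ∈ X₁.Jf ↔ σ j ∈ X₂.Jf) (hpp : ∀ j ∈ X₁.Jf, (X₂.pp (σ j) ↔ X₁.pp j))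
    (EV : SP St Pt →* SP S P) (psi : St → ZMod q) {τ₁ τ₂ : V → St} {x₁ x₂ : J → SP St Pt}
    (hR : Y₂.RR τ₂ x₂ = Y₁.RR τ₁ x₁) {e₁ e₂ : J → El2 S P q d}
    {η₁ η₂ : J → Du St q d × Du St q (d + 1)} (hx : ∀ j ∈ X₁.Jf, x₂ (σ j) = x₁ j)
    (he : ∀ j ∈ X₁.Jf, e₂ (σ j) = e₁ j) (hη : ∀ j ∈ X₁.Jf, η₂ (σ j) = η₁ j) :
    rhc X₂ Y₂ EV psi τ₂ x₂ e₂ η₂ = rhc X₁ Y₁ EV psi τ₁ x₁ e₁ η₁ := by
  unfold rhc
  rw [hR]
  congr 1
  symm
  refine Finset.prod_equiv σ hjf fun j hj => ?_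
  rw [hx j hj, he j hj, hη j hj]
  by_cases hp : X₁.pp j
  · rw [if_pos hp, if_pos ((hpp j hj).2 hp)]
  · rw [if_neg hp, if_neg (mt (hpp j hj).1 hp)]

end tr

section nt

variable {K : Type} [Field K] [NumberField K] {Ω : Type} [Field Ω] [Algebra K Ω]
  {p N : ℕ} {ζ : K} {D : RD0 K p ζ} {Q : DP K Ω} {A : GS D Ω} {P : Type} [Group P]

theorem syg_of {S : Type} [Group S] [MulDistribMulAction P S] {X : FD A P S} {W : WF A} {T : ℝ}
    {Zc : Finset (Pl K)} {Λ : Type} {f₁ f₂ : Pl K → Option Λ} {s : Equiv.Perm (Pl K)}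
    (h : H62.OW.Sy X W T Zc f₁ f₂ s) : SyG X W T Zc f₁ f₂ s where
  f := h.f
  z := h.z
  e := h.e
  s0 := h.s0
  n := h.n
  p := h.p
  l := h.l
  ze := h.ze

variable {hp : p.Prime} {c : CL p N P} {M : ℕ} {Pa : Par}

theorem syg_fdo {X : FD A P (Sp Pa (Px c))} {W : WF A} {T : ℝ} {Zc : Finset (Pl K)} {Λ : Type}
    {f₁ f₂ : Pl K → Option Λ} {s : Equiv.Perm (Pl K)} (h : SyG X W T Zc f₁ f₂ s) :
    SyG (fdo hp c M X) W T Zc f₁ f₂ s where
  f := h.f
  z := h.z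
  e := h.e
  s0 := h.s0
  n w hw h1 := h.n w hw fun h2 => h1 ((ppo X W T w).2 h2)
  p w hw := (ppo X W T (s w)).trans ((h.p w hw).trans (ppo X W T w).symm)
  l := h.l
  ze := h.ze

/-- data at the letters for two tuples: equal at `v k` and `v' k`, equal at the other living letters -/
structure Cor (A : GS D Ω) {Λ : Type} (Zc E : Finset (Pl K)) (b : Pl K → Option Λ) {n : ℕ} (v v' : Fin n → Pl K)
    {α : Type} (F F' : Pl K ⊕ Fin A.g → α) : Prop where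
  k : ∀ k, F' (Sum.inl (v' k)) = F (Sum.inl (v k))
  f : ∀ w, w ∈ sp Zc b ∨ w ∈ E → F' (Sum.inl w) = F (Sum.inl w)
  r : ∀ i, F' (Sum.inr i) = F (Sum.inr i)

variable {G : SG c (Sp Pa (Px c))} {G' : SG (cO hp c M) (So hp c M Pa)}
  {B : SD D Q A} {X : FD A P (Sp Pa (Px c))} {W : WF A} {T : ℝ} {Zc : Finset (Pl K)} {q d : ℕ}

/-- THE CONSTANT OF A CELL DEPENDS ON THE ORDER ONLY. Letters of the group with own letters: `up b v l`; letters of `S`: their images. -/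
theorem rhc_oe (hZc : Zc ⊆ W.Z) (hE : X.E ⊆ W.Z)
    (hZs : ∀ v ∈ W.Z, v ∉ D.S0) (hnd : W.l.Nodup) (hlz : ∀ v, v ∈ W.l ↔ v ∈ W.Z ∨ v ∈ D.S0)
    (hZE : Disjoint Zc X.E) (hET : ∀ v ∈ X.E, (nm v : ℝ) ≤ T) (hsrt : W.Srt) {n : ℕ}
    (l : Fin n → Px (cO hp c M)) (b : Pl K → Option (Px (cO hp c M))) (v v' : Fin n → Pl K)
    (hv : v ∈ H35.CF.Fr Zc (PPc X W T) b n) (hv' : v' ∈ H35.CF.Fr Zc (PPc X W T) b n)
    (ho : Oe Zc b v v') (psi : So hp c M Pa → ZMod q) {τ τ' : Pl K → So hp c M Pa}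
    (ht : ∀ k, τ' (v' k) = τ (v k)) (ht' : ∀ w, w ∈ sp Zc b ∨ w ∈ X.E ∨ w ∈ D.S0 → τ' w = τ w)
    {x x' : Pl K ⊕ Fin A.g → SP (So hp c M Pa) (P × Ci p M)} (hx : Cor A Zc X.E b v v' x x')
    {e e' : Pl K ⊕ Fin A.g → El2 (Sp Pa (Px c)) P q d} (he : Cor A Zc X.E b v v' e e')
    {η η' : Pl K ⊕ Fin A.g → Du (So hp c M Pa) q d × Du (So hp c M Pa) q (d + 1)}
    (hη : Cor A Zc X.E b v v' η η') {f f' : Pl K → Option (Px c)}
    {g g' : Pl K → Option (Px (cO hp c M))} (hg : g = up b v l) (hg' : g' = up b v' l)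
    (hf : f = fe g) (hf' : f' = fe g') :
    rhc (adf G B X W T Zc f') (adf G' B (fdo hp c M X) W T Zc g') (EV hp c M Pa) psi τ' x' e' η' =
      rhc (adf G B X W T Zc f) (adf G' B (fdo hp c M X) W T Zc g) (EV hp c M Pa) psi τ x e η := by
  subst hg hg' hf hf'
  obtain ⟨s, hs, s1, s2, s3⟩ := H62.OW.sy_of X W T Zc hZc hE hZs hnd hlz hZE hET hsrt l b v v' hv
    hv' ho
  have h1 : SyG X W T Zc (up b v l) (up b v' l) s := syg_of hs
  have h2 : SyG X W T Zc (fe (up b v l)) (fe (up b v' l)) s := h1.map fs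
  have h3 : SyG (fdo hp c M X) W T Zc (up b v l) (up b v' l) s := syg_fdo h1
  have hfr : (∀ k, v k ∈ Zc) := by
    intro k
    unfold H35.CF.Fr at hv
    rw [Finset.mem_filter, Fintype.mem_piFinset] at hv
    exact (Finset.mem_filter.1 (hv.1 k)).1
  have hsp : ∀ w, w ∈ H35.CF.sp Zc (up b v l) → (∃ k, v k = w) ∨ w ∈ H35.CF.sp Zc b := by
    intro w hw
    by_cases h1 : ∃ k, v k = w
    · exact Or.inl h1
    · push Not at h1
      rw [mem_sp, up_ne b v l _ h1] at hw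
      exact Or.inr (mem_sp.2 hw)
  have key : ∀ {α : Type} {F F' : Pl K ⊕ Fin A.g → α}, Cor A Zc X.E b v v' F F' →
      ∀ j ∈ (adf G B X W T Zc (fe (up b v l))).Jf, F' (sgG A s j) = F j := by
    intro α F F' hF j hj
    rcases j with w | i
    · rw [memG_jf, sp_fe] at hj
      rw [sgG_inl]
      rcases hj with hj | hj
      · rcases hsp w hj with ⟨k, rfl⟩ | hj
        · rw [s1, hF.k]
        · rw [s2 w hj, hF.f w (Or.inl hj)]
      · rw [h1.e w hj, hF.f w (Or.inr hj)]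
    · rw [sgG_inr, hF.r]
  refine rhc_tr (sgG A s) (h2.jf G B) (fun j _ => h2.pp G B j) (EV hp c M Pa) psi ?_ (key hx)
    (key he) (key hη)
  refine (h3.tr G' B τ τ' fun w hw => ?_).RR x x' fun j hj => ?_
  · rcases hw with hw | hw | hw
    · rcases hsp w hw with ⟨k, rfl⟩ | hw
      · rw [s1, ht]
      · rw [s2 w hw, ht' w (Or.inl hw)]
    · rw [h1.e w hw, ht' w (Or.inr (Or.inl hw))]
    · rw [h1.s0 w hw, ht' w (Or.inr (Or.inr hw))]
  · rw [ado_jf] at hj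
    exact key hx j hj

end nt

end H86.OW
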